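import Pool.Agent.Lib.MP_5d3e93_al.K.Lat2
import Pool.Agent.Lib.MP_5d3e93_al.K.Pub

/-! Farrell-Jones in all degrees, as vanishing of the K-theory of the obstruction category, for
actions on modular lattices with a shift. -/

open CategoryTheory MulAction Pool.Agent.Lib.MP_5d3e93_al
open scoped Pointwise

namespace Pool.Agent.Lib.MP_5d3e93_al.Old.Buildings

universe w w' v u

theorem result {G : Type w} [Group G] {X : Type w} [Lattice X] [Nonempty X] (B : Bg.Bl X)
    [MulAction G X] [B.Ac G]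
    {S : Type w'} [MulAction G S] (hS : ∀ (H : Subgroup G) (x : H),
      (Subgroup.zpowers x).FiniteIndex → ∃ s : S, ∀ g ∈ H, g • s = s)
    (hA : ∀ x : X, Acc (fun D₁ D : Subgroup G => ∃ t : G, ¬ LocHyper D ∧
      (¬ ∃ s : S, ∀ g ∈ D ⊔ Subgroup.zpowers t, g • s = s) ∧ D₁ = D ⊓ MulAut.conj t • D)
        (stabilizer G x))
    {C : Type u} [Category.{v} C] [Preadditive C] (ρ : Act G C) :
    KZero (TwZ (Obs.act S ρ)) :=
  (kz_bl (𝓕 := Fam.fix G S) B (1 : G →* GL (Fin 0) (ULift.{w} ℤ)) (fun x =>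
    Subrelation.accessible (fun ⟨t, a, _, _, b, c⟩ => ⟨t, a, b, c⟩) (hA x)) (obs_sw ρ hS)
      (obs_swF ρ)).pub

end Pool.Agent.Lib.MP_5d3e93_al.Old.Buildings
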