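import Pool.Agent.Lib.MP_5d3e93_al.ObsMain

/-! Farrell-Jones up to dimension one, as vanishing of the lower K-theory of the obstruction
category, for actions on trees whose iterated edge stabilisers become locally
hyper-(locally virtually polycyclic). -/

open CategoryTheory MulAction Pool.Agent.Lib.MP_5d3e93_al
open scoped Pointwise

namespace Pool.Agent.Lib.MP_5d3e93_al.Old.HyperTree

universe w w' w'' v u

theorem result {G : Type w} [Group G] {V : Type w'} [MulAction G V] (T : SimpleGraph V)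
    (hT : T.IsTree) (ha : ∀ (g : G) a b, T.Adj a b → T.Adj (g • a) (g • b))
    (hi : ∀ (g : G) a b, T.Adj a b → g • a = b → g • b ≠ a)
    {S : Type w''} [MulAction G S] (hS : ∀ (H : Subgroup G) (x : H),
      (Subgroup.zpowers x).FiniteIndex → ∃ s : S, ∀ g ∈ H, g • s = s)
    {C : Type u} [Category.{v} C] [Preadditive C] (ρ : Act G C)
    (hV : ∀ a : V, LocHyper (stabilizer G a) ∨
      K1Zero (TwZ ((Obs.act S ρ).comap (stabilizer G a).subtype)))
    (hE : ∀ a b, T.Adj a b → LocHyper ↥(stabilizer G a ⊓ stabilizer G b) ∨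
      K1Zero (TwZ ((Obs.act S ρ).comap (stabilizer G a ⊓ stabilizer G b).subtype)))
    (hA : ∀ a b, T.Adj a b → Acc (fun D₁ D : Subgroup G => ∃ g : G,
      Half T (g • a) (g • b) ⊂ Half T a b ∧ ¬ LocHyper D ∧ D₁ = D ⊓ MulAut.conj g • D)
      (stabilizer G a ⊓ stabilizer G b)) :
    K1Zero (TwZ (Obs.act S ρ)) :=
  hyper_main (obs_k0 hS) (obs_vc ρ hS) hT ha hi hV hE hA

end Pool.Agent.Lib.MP_5d3e93_al.Old.HyperTree
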