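import Pool.Agent.Lib.MP_5d3e93_al.K.All
import Pool.Agent.Lib.MP_5d3e93_al.K.Pub

/-! Farrell-Jones in all degrees for linear groups, as vanishing of the K-theory of the
obstruction category. -/

open CategoryTheory Pool.Agent.Lib.MP_5d3e93_al

namespace Pool.Agent.Lib.MP_5d3e93_al.Old.Linear

universe w w' v u

theorem result {G : Type w} [Group G] (hG : ∀ H : Subgroup G, H.FG → ∃ (R : Type w)
    (_ : CommRing R) (n : ℕ) (φ : H →* GL (Fin n) R), Hyper φ.ker)
    {S : Type w'} [MulAction G S] (hS : ∀ (H : Subgroup G) (x : H),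
      (Subgroup.zpowers x).FiniteIndex → ∃ s : S, ∀ g ∈ H, g • s = s)
    {C : Type u} [Category.{v} C] [Preadditive C] (ρ : Act G C) :
    KZero (TwZ (Obs.act S ρ)) :=
  (kz_all hG (obs_sw ρ hS)).pub

end Pool.Agent.Lib.MP_5d3e93_al.Old.Linear
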