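import Pool.Agent.Lib.MP_5d3e93_al.Bg.RLin

/-! Farrell-Jones up to dimension one for linear groups, as vanishing of the lower K-theory of the
obstruction category, relative to the groups that are bounded over the prime field by cyclic. -/

open CategoryTheory Pool.Agent.Lib.MP_5d3e93_al

namespace Pool.Agent.Lib.MP_5d3e93_al.Old.LinearGroups

universe w w' w'' v u

theorem result {G : Type w} [Group G] {K : Type w'} [Field K] {n : ℕ} (φ : G →* GL (Fin n) K)
    {S : Type w''} [MulAction G S]
    (hS : ∀ N : Subgroup G, Module.Finite (⊥ : Subfield K) (Submodule.span (⊥ : Subfield K)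
      ((fun g => (φ g : Matrix (Fin n) (Fin n) K)) '' N)) →
      ∀ t ∈ Subgroup.normalizer (N : Set G), ∃ s : S, t • s = s ∧ ∀ g ∈ N, g • s = s)
    {C : Type u} [Category.{v} C] [Preadditive C] (ρ : Act G C) :
    K1Zero (TwZ (Obs.act S ρ)) :=
  Bg.k1_rlin φ fun N a t b => by
    obtain ⟨s, c, d⟩ := hS N a t b
    exact (obs_swd ρ s).mono fun g k => (show N ⊔ Subgroup.zpowers t ≤ MulAction.stabilizer G s from
      sup_le d (Subgroup.zpowers_le.2 c)) k

end Pool.Agent.Lib.MP_5d3e93_al.Old.LinearGroups
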