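import Pool.Agent.Lib.MP_5d3e93_al.TreeMain

/-! Farrell-Jones up to dimension one, in vanishing form, for actions on trees whose edge
stabilisers are accessible, for a fixed coefficient category. -/

open CategoryTheory Limits MulAction Pool.Agent.Lib.MP_5d3e93_al
open scoped Pointwise

namespace Pool.Agent.Lib.MP_5d3e93_al.Old.TreeAcc

universe w w' v u

theorem result {G : Type w} [Group G] {V : Type w'} [MulAction G V] (T : SimpleGraph V)
    (hT : T.IsTree) (ha : ∀ (g : G) a b, T.Adj a b → T.Adj (g • a) (g • b))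
    (hi : ∀ (g : G) a b, T.Adj a b → g • a = b → g • b ≠ a)
    {C : Type u} [Category.{v} C] [Preadditive C] [HasBinaryBiproducts C] (ρ : Act G C)
    (h0 : K0Zero C) (hV : ∀ a : V, K1Zero (TwZ (ρ.comap (stabilizer G a).subtype)))
    (hE : ∀ a b, T.Adj a b → K1Zero (TwZ (ρ.comap (stabilizer G a ⊓ stabilizer G b).subtype)))
    (hA : ∀ a b, T.Adj a b → Acc (fun D₁ D : Subgroup G => ∃ g : G,
      Half T (g • a) (g • b) ⊂ Half T a b ∧ ¬ Cov ρ D g ∧ D₁ = D ⊓ MulAut.conj g • D)
      (stabilizer G a ⊓ stabilizer G b)) :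
    K1Zero (TwZ ρ) :=
  tree_main hT ha hi h0 hV hE hA

end Pool.Agent.Lib.MP_5d3e93_al.Old.TreeAcc
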