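import Pool.Agent.Lib.MP_5d3e93_al.K.TW
import Pool.Agent.Lib.MP_5d3e93_al.K.Pub

/-! Farrell-Jones in all degrees relative to the vertex groups, as vanishing of the K-theory of
the obstruction category, for actions on trees. -/

open CategoryTheory MulAction Pool.Agent.Lib.MP_5d3e93_al
open scoped Pointwise

namespace Pool.Agent.Lib.MP_5d3e93_al.Old.Trees

universe w w' v u

theorem result {G : Type w} [Group G] {V : Type w} [MulAction G V] (T : SimpleGraph V)
    (hT : T.IsTree) (ha : ∀ (g : G) a b, T.Adj a b → T.Adj (g • a) (g • b))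
    (hi : ∀ (g : G) a b, T.Adj a b → g • a = b → g • b ≠ a)
    {ι : Type} [Finite ι] {W : ι → Type w} [∀ i, MulAction G (W i)] (U : ∀ i, SimpleGraph (W i))
    (hU : ∀ i, (U i).IsTree)
    (hb : ∀ i (g : G) a b, (U i).Adj a b → (U i).Adj (g • a) (g • b))
    (hj : ∀ i (g : G) a b, (U i).Adj a b → g • a = b → g • b ≠ a)
    {R : Type w} [CommRing R] {n : ℕ} (φ : G →* GL (Fin n) R)
    {S : Type w'} [MulAction G S] (hS : ∀ (H : Subgroup G) (x : H),
      (Subgroup.zpowers x).FiniteIndex → ∃ s : S, ∀ g ∈ H, g • s = s)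
    (hV : ∀ a : V, Slim (∀ i, W i) ⊤ (stabilizer G a) ∨ ∃ s : S, ∀ g ∈ stabilizer G a, g • s = s)
    (hA : ∀ a b, T.Adj a b → Acc (fun D₁ D : Subgroup G => ∃ g : G,
      Half T (g • a) (g • b) ⊂ Half T a b ∧ ¬ Slim (∀ i, W i) φ.ker D ∧
        D₁ = D ⊓ MulAut.conj g • D) (stabilizer G a ⊓ stabilizer G b))
    {C : Type u} [Category.{v} C] [Preadditive C] (ρ : Act G C) :
    KZero (TwZ (Obs.act S ρ)) :=
  (kz_tw (𝓕 := Fam.fix G S) hU hb hj hT ha hi φ (fun a => (hV a).imp (fun h x => (h x).imp_right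
    (·.le (inf_le_inf_left _ le_top))) .inr) hA (obs_sw ρ hS) (obs_swF ρ)).pub

end Pool.Agent.Lib.MP_5d3e93_al.Old.Trees
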