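import Pool.Agent.Lib.MP_5d3e93_al.TriMain
import Pool.Agent.Lib.MP_5d3e93_al.Flq

/-! Farrell-Jones up to dimension one, as vanishing of the lower K-theory of the obstruction
category, passes from the kernel to a triangular shift extension by the integers. -/

open CategoryTheory Pool.Agent.Lib.MP_5d3e93_al

namespace Pool.Agent.Lib.MP_5d3e93_al.Old.Triangular

universe w w' v u

theorem result {G : Type w} [Group G] (χ : G →* Multiplicative ℤ) (t : G)
    (ht : χ t = Multiplicative.ofAdd 1) (A L : Subgroup G) (hL : L ≤ χ.ker)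
    (hN : L ≤ Subgroup.normalizer A) (hAL : A ⊓ L = ⊥) (htA : ∀ a ∈ A, t * a * t⁻¹ ∈ L)
    (htL : ∀ l ∈ L, t * l * t⁻¹ ∈ L)
    (hK : χ.ker = Subgroup.closure {g | ∃ i : ℤ, ∃ a ∈ A, g = t ^ i * a * t ^ (-i)})
    {S : Type w'} [MulAction G S] (hS : ∀ g : G, ∃ s : S, g • s = s)
    {C : Type u} [Category.{v} C] [Preadditive C] (ρ : Act G C)
    (hk : K1Zero (TwZ ((Obs.act S ρ).comap χ.ker.subtype))) : K1Zero (TwZ (Obs.act S ρ)) := by
  refine triangular _ (TD.mk' χ t ht A L hL hN hAL htA htL hK) rfl ((hS 1).elim fun s _ => Obs.k0 s)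
    (fun g => (hS g).elim fun s e => Obs.k1 s ρ ((Subgroup.zpowers g).subtype.comp (.fst _ Zi))
      fun y => Subgroup.zpowers_le.2 (MulAction.mem_stabilizer_iff.2 e) y.1.2) ?_
  have e : (TD.mk' χ t ht A L hL hN hAL htA htL hK).K = χ.ker := by
    ext g
    exact toAdd_eq_zero
  rw [e]
  exact hk

end Pool.Agent.Lib.MP_5d3e93_al.Old.Triangular
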